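import Mathlib.ModelTheory.Basic
import Mathlib.Computability.TuringDegree
import Mathlib.Logic.Equiv.List
import Mathlib.Algebra.Notation.Indicator

/-! Computable languages, atomic diagrams, bi-embeddability and hyperarithmetic reducibility. -/

namespace Pool.Agent.MP_219b86_lc.Hyp

open FirstOrder

/-- The language whose `n`-ary function symbols are the `i` with `fa i = some n` and whose
`n`-ary relation symbols are the `i` with `ra i = some n`. -/
def Lang (fa ra : ℕ → Option ℕ) : FirstOrder.Language where
  Functions n := {i : ℕ // fa i = some n}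
  Relations n := {i : ℕ // ra i = some n}

/-- Bi-embeddability of two structures with universe `ℕ`. -/
def BiEmb {L : FirstOrder.Language.{0, 0}} (A B : L.Structure ℕ) : Prop :=
  Nonempty (@Language.Embedding L ℕ ℕ A B) ∧ Nonempty (@Language.Embedding L ℕ ℕ B A)

/-- The code of an atomic sentence: its kind, its symbol and its list of elements. -/
def code (t i : ℕ) (l : List ℕ) : ℕ := Nat.pair t (Nat.pair i (Encodable.encode l))

/-- The atomic diagram: the codes of the true sentences `x = y`, `y = f_i (v)` and `R_i (v)`. -/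
def diagram {fa ra : ℕ → Option ℕ} (B : (Lang fa ra).Structure ℕ) : Set ℕ :=
  {c | (∃ x y : ℕ, c = code 0 0 [x, y] ∧ x = y) ∨
    (∃ (n : ℕ) (f : (Lang fa ra).Functions n) (v : Fin n → ℕ) (y : ℕ),
      c = code 1 f.1 (y :: List.ofFn v) ∧ y = B.funMap f v) ∨
    ∃ (n : ℕ) (r : (Lang fa ra).Relations n) (v : Fin n → ℕ),
      c = code 2 r.1 (List.ofFn v) ∧ B.RelMap r v}

/-- The characteristic function of a set, as an oracle. -/
noncomputable def chi (S : Set ℕ) : ℕ →. ℕ := fun n => Part.some (S.indicator (fun _ => 1) n)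

/-- `S` is `Σ^1_1` in `b`, in Kleene normal form: `n ∈ S` if and only if some `z : ℕ → ℕ` has
all pairs of `n` and an initial segment of `z` in a set `R` computable in `b`. -/
def Sigma11 (b S : Set ℕ) : Prop :=
  ∃ R : Set ℕ, TuringReducible (chi R) (chi b) ∧ ∀ n, n ∈ S ↔
    ∃ z : ℕ → ℕ, ∀ k, Nat.pair n (Encodable.encode ((List.range k).map z)) ∈ R

/-- `a` is `Δ^1_1` in `b`, that is, hyperarithmetic in `b`. -/
def HypIn (a b : Set ℕ) : Prop := Sigma11 b a ∧ Sigma11 b aᶜ

end Pool.Agent.MP_219b86_lc.Hyp
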