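import Pool.Agent.MP_68d28f_lc.ce.KitB

/-! Functionals with finite use, effectively closed classes and a basis theorem. -/

namespace Pool.Agent.MP_219b86_lc.Hyp

open Pool.Agent.MP_b427ce_lc Pool.Agent.MP_68d28f_lc.CE

variable {α β γ : Type} [Primcodable α] [Primcodable β] [Primcodable γ] {a : ℕ → ℕ}

/-- `Q z x` is computed from `a` and an initial segment of `z`, uniformly in `z`. -/
def Loc (a : ℕ → ℕ) (Q : (ℕ → ℕ) → α → β) : Prop :=
  ∃ P : List ℕ → α → Option β, ComputableIn (orc a) (fun p : List ℕ × α => P p.1 p.2) ∧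
    (∀ z x k v, P (pre z k) x = some v → v = Q z x) ∧
    ∀ z x, ∃ N, ∀ k, N ≤ k → P (pre z k) x = some (Q z x)

lemma Loc.of_eq {Q Q' : (ℕ → ℕ) → α → β} (h : Loc a Q) (e : ∀ z x, Q z x = Q' z x) :
    Loc a Q' := (funext₂ e : Q = Q') ▸ h

lemma Loc.const {φ : α → β} (h : ComputableIn (orc a) φ) : Loc a fun _ x => φ x :=
  ⟨fun _ x => some (φ x), by fun_prop, fun _ _ _ _ h => (Option.some.inj h).symm,
    fun _ _ => ⟨0, fun _ _ => rfl⟩⟩

lemma Loc.comp [Inhabited β] {Q : (ℕ → ℕ) → α → β} {φ : β → γ} (hφ : ComputableIn (orc a) φ)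
    (h : Loc a Q) : Loc a fun z x => φ (Q z x) := by
  obtain ⟨P, hP, h1, h2⟩ := h
  refine ⟨fun t x => (P t x).map φ, c_optMap (g := fun _ b => φ b) hP (by fun_prop),
    fun z x k v hv => ?_, fun z x => ?_⟩
  · obtain ⟨w, hw, rfl⟩ := Option.map_eq_some_iff.1 hv
    rw [h1 z x k w hw]
  · obtain ⟨N, hN⟩ := h2 z x
    exact ⟨N, fun k hk => by simp only [hN k hk, Option.map_some]⟩

lemma Loc.pair [Inhabited β] [Inhabited γ] {Q : (ℕ → ℕ) → α → β} {Q' : (ℕ → ℕ) → α → γ}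
    (h : Loc a Q) (h' : Loc a Q') : Loc a fun z x => (Q z x, Q' z x) := by
  obtain ⟨P, hP, h1, h2⟩ := h
  obtain ⟨P', hP', h1', h2'⟩ := h'
  refine ⟨fun t x => (P t x).bind fun u => (P' t x).map fun w => (u, w), ?_,
    fun z x k v hv => ?_, fun z x => ?_⟩
  · refine c_optBind (g := fun p u => (P' p.1 p.2).map fun w => (u, w)) hP ?_
    exact c_optMap (g := fun (p : (List ℕ × α) × β) w => (p.2, w))
      (c_comp hP' (g := fun p : (List ℕ × α) × β => p.1) (by fun_prop)) (by fun_prop)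
  · obtain ⟨u, hu, hv⟩ := Option.bind_eq_some_iff.1 hv
    obtain ⟨w, hw, rfl⟩ := Option.map_eq_some_iff.1 hv
    rw [h1 z x k u hu, h1' z x k w hw]
  · obtain ⟨N, hN⟩ := h2 z x
    obtain ⟨N', hN'⟩ := h2' z x
    exact ⟨max N N', fun k hk => by
      simp only [hN k (by omega), hN' k (by omega), Option.bind_some, Option.map_some]⟩

lemma Loc.seg {u : (ℕ → ℕ) → α → ℕ} (h : Loc a u) : Loc a fun z x => pre z (u z x) := by
  obtain ⟨P, hP, h1, h2⟩ := h
  refine ⟨fun t x => (P t x).bind fun n => cond (leB n t.length) (some (t.take n)) none, ?_,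
    fun z x k v hv => ?_, fun z x => ?_⟩
  · exact c_optBind (g := fun p n => cond (leB n p.1.length) (some (p.1.take n)) none) hP
      (by fun_prop)
  · obtain ⟨n, hn, hv⟩ := Option.bind_eq_some_iff.1 hv
    show v = pre z (u z x)
    rw [← h1 z x k n hn]
    by_cases hk : n ≤ k
    · rw [length_pre, leB_iff.2 hk, take_pre z hk] at hv
      exact (Option.some.inj hv).symm
    · rw [length_pre, leB_false_iff.2 (by omega)] at hv
      simp at hv
  · obtain ⟨N, hN⟩ := h2 z x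
    refine ⟨max N (u z x), fun k hk => ?_⟩
    have hk' : u z x ≤ k := by omega
    simp only [hN k (by omega), Option.bind_some, length_pre, leB_iff.2 hk', take_pre z hk',
      cond_true]

lemma Loc.comp₂ [Inhabited α] [Inhabited β] {Q : (ℕ → ℕ) → α → β} {φ : α → β → γ}
    (hφ : ComputableIn (orc a) fun p : α × β => φ p.1 p.2) (h : Loc a Q) :
    Loc a fun z x => φ x (Q z x) :=
  Loc.comp hφ ((Loc.const (φ := fun x => x) c_id).pair h)

lemma Loc.app {u : (ℕ → ℕ) → α → ℕ} (h : Loc a u) : Loc a fun z x => z (u z x) := by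
  have h1 := (Loc.comp (φ := fun n : ℕ => n + 1) (by fun_prop) h).seg
  exact (Loc.comp (φ := fun p : List ℕ × ℕ => p.1.getD p.2 0) (by fun_prop)
    (h1.pair h)).of_eq fun z x => getD_pre z (by simp) 0

lemma Loc.map {L : (ℕ → ℕ) → α → List ℕ} (h : Loc a L) : Loc a fun z x => (L z x).map z := by
  have h1 := (Loc.comp (φ := fun l : List ℕ => lmax l + 1) (by fun_prop) h).seg
  refine (Loc.comp (φ := fun p : List ℕ × List ℕ => p.2.map fun y => p.1.getD y 0)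
    (by fun_prop) (h1.pair h)).of_eq fun z x => ?_
  exact List.map_congr_left fun y hy => getD_pre z (Nat.lt_succ_of_le (le_lmax hy)) 0

lemma Loc.arg {Q : (ℕ → ℕ) → β → γ} {φ : α → β} (h : Loc a Q) (hφ : ComputableIn (orc a) φ) :
    Loc a fun z x => Q z (φ x) := by
  obtain ⟨P, hP, h1, h2⟩ := h
  exact ⟨fun t x => P t (φ x), c_comp hP (g := fun p : List ℕ × α => (p.1, φ p.2)) (by fun_prop),
    fun z x => h1 z (φ x), fun z x => h2 z (φ x)⟩

lemma Loc.and {Q Q' : (ℕ → ℕ) → α → Bool} (h : Loc a Q) (h' : Loc a Q') :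
    Loc a fun z x => Q z x && Q' z x :=
  Loc.comp (φ := fun p : Bool × Bool => p.1 && p.2) (by fun_prop) (h.pair h')

lemma Loc.eqB [DecidableEq β] [Inhabited β] {Q Q' : (ℕ → ℕ) → α → β} (h : Loc a Q)
    (h' : Loc a Q') : Loc a fun z x => eqB (Q z x) (Q' z x) :=
  Loc.comp (φ := fun p : β × β => MP_b427ce_lc.eqB p.1 p.2) (by fun_prop) (h.pair h')

lemma Loc.use {Q : (ℕ → ℕ) → α → β} (h : Loc a Q) (z : ℕ → ℕ) (x : α) :
    ∃ N, ∀ z', (∀ j < N, z' j = z j) → Q z' x = Q z x := by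
  obtain ⟨P, -, h1, h2⟩ := h
  obtain ⟨N, hN⟩ := h2 z x
  refine ⟨N, fun z' hz => (h1 z' x N _ ?_).symm⟩
  rw [pre_congr hz]
  exact hN N le_rfl

/-- the normal form of a universal statement about a functional -/
lemma Loc.tree {Q : (ℕ → ℕ) → α × ℕ → Bool} (h : Loc a Q) :
    ∃ R : α → List ℕ → Bool, ComputableIn (orc a) (fun p : α × List ℕ => R p.1 p.2) ∧
      ∀ z x, (∀ k, R x (pre z k) = true) ↔ ∀ m, Q z (x, m) = true := by
  obtain ⟨P, hP, h1, h2⟩ := h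
  refine ⟨fun x t => (P (t.take t.length.unpair.1) (x, t.length.unpair.2)).getD true, ?_,
    fun z x => ⟨fun h m => ?_, fun h k => ?_⟩⟩
  · exact c_optGetD (c_comp hP (g := fun p : α × List ℕ =>
      (p.2.take p.2.length.unpair.1, p.1, p.2.length.unpair.2)) (by fun_prop)) (c_const _)
  · obtain ⟨N, hN⟩ := h2 z (x, m)
    have := h (Nat.pair N m)
    simp only [length_pre, Nat.unpair_pair, take_pre z (Nat.left_le_pair N m), hN N le_rfl,
      Option.getD_some] at this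
    exact this
  · simp only [length_pre, take_pre z (Nat.unpair_left_le k)]
    cases e : P (pre z k.unpair.1) (x, k.unpair.2) with
    | none => rfl
    | some v => rw [h1 _ _ _ _ e]; exact h _

/-- classes that are effectively closed relative to `a` -/
def Cl (a : ℕ → ℕ) (X : Set (ℕ → ℕ)) : Prop :=
  ∃ Q : (ℕ → ℕ) → ℕ → Bool, Loc a Q ∧ ∀ z, z ∈ X ↔ ∀ m, Q z m = true

lemma Cl.inter {X Y : Set (ℕ → ℕ)} (h : Cl a X) (h' : Cl a Y) : Cl a (X ∩ Y) := by
  obtain ⟨Q, hQ, h⟩ := h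
  obtain ⟨Q', hQ', h'⟩ := h'
  exact ⟨_, hQ.and hQ', fun z => by simp only [Set.mem_inter_iff, h, h', Bool.and_eq_true,
    forall_and]⟩

lemma Cl.closed {X : Set (ℕ → ℕ)} (h : Cl a X) {z : ℕ → ℕ}
    (hz : ∀ N, ∃ z' ∈ X, ∀ j < N, z' j = z j) : z ∈ X := by
  obtain ⟨Q, hQ, h⟩ := h
  refine (h z).2 fun m => ?_
  obtain ⟨N, hN⟩ := hQ.use z m
  obtain ⟨z', hz', e⟩ := hz N
  rw [← hN z' e]
  exact (h z').1 hz' m

lemma loc_ev (π : ℕ → ℕ) (hπ : ComputableIn (orc a) π) {e x n : α → ℕ}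
    (he : ComputableIn (orc a) e) (hx : ComputableIn (orc a) x) (hn : ComputableIn (orc a) n)
    [Inhabited α] : Loc a fun z y => ev (e y) (pre (fun j => π (z j)) (n y)) (x y) :=
  (Loc.comp₂ (φ := fun y (t : List ℕ) => ev (e y) (t.map π) (x y)) (by fun_prop)
    (Loc.const hn).seg).of_eq fun z y => by rw [map_pre]

/-- the graph of `b` is analytic relative to `a` -/
def Ana (a b : ℕ → ℕ) : Prop :=
  ∃ R : ℕ × ℕ → List ℕ → Bool,
    ComputableIn (orc a) (fun p : (ℕ × ℕ) × List ℕ => R p.1 p.2) ∧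
      ∀ n v, b n = v ↔ ∃ z : ℕ → ℕ, ∀ k, R (n, v) (pre z k) = true

lemma ana_of_cmp {X : Set (ℕ → ℕ)} (hX : Cl a X) (hne : X.Nonempty) {π : ℕ → ℕ}
    (hπ : ComputableIn (orc a) π) {b : ℕ → ℕ} {e : ℕ}
    (h : ∀ z ∈ X, Cmp e (fun j => π (z j)) b) : Ana a b := by
  obtain ⟨Q, hQ, hX⟩ := hX
  have h1 := loc_ev (α := (ℕ × ℕ) × ℕ) π hπ (e := fun _ => e) (x := fun y => y.1.1)
    (n := fun y => y.2) (by fun_prop) (by fun_prop) (by fun_prop)
  have h2 := (hQ.arg (φ := fun y : (ℕ × ℕ) × ℕ => y.2) (by fun_prop)).and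
    (Loc.comp₂ (φ := fun (y : (ℕ × ℕ) × ℕ) (o : Option ℕ) => eqB (o.getD y.1.2) y.1.2)
      (by fun_prop) h1)
  obtain ⟨R, hR, hR'⟩ := h2.tree
  refine ⟨R, hR, fun n v => ?_⟩
  simp only [hR', Bool.and_eq_true, eqB_iff, forall_and, ← hX]
  constructor
  · rintro rfl
    obtain ⟨z, hz⟩ := hne
    refine ⟨z, hz, fun m => ?_⟩
    cases e1 : ev e (pre (fun j => π (z j)) m) n with
    | none => rfl
    | some w => exact (h z hz).eq e1
  · rintro ⟨z, hz, h3⟩
    obtain ⟨m, hm⟩ := h z hz n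
    have := h3 m
    rwa [hm] at this

/-- if every member of a nonempty closed class computes `b`, then `b` is hyperarithmetic -/
theorem ana_of_red {X : Set (ℕ → ℕ)} (hX : Cl a X) (hne : X.Nonempty) {π : ℕ → ℕ}
    (hπ : ComputableIn (orc a) π) {b : ℕ → ℕ} (h : ∀ z ∈ X, Red b fun j => π (z j)) :
    Ana a b := by
  by_contra hb
  have step : ∀ (e : ℕ) (Y : {Y : Set (ℕ → ℕ) // Cl a Y ∧ Y.Nonempty}),
      ∃ Y' : {Y : Set (ℕ → ℕ) // Cl a Y ∧ Y.Nonempty}, ∃ v : ℕ, Y'.1 ⊆ Y.1 ∧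
        ∀ z ∈ Y'.1, z e = v ∧ ¬ Cmp e (fun j => π (z j)) b := by
    rintro e ⟨Y, hY, hYne⟩
    obtain ⟨z, hz, hc⟩ : ∃ z ∈ Y, ¬ Cmp e (fun j => π (z j)) b := by
      by_contra hh
      exact hb (ana_of_cmp hY hYne hπ (e := e) fun z hz => not_not.1 fun h' => hh ⟨z, hz, h'⟩)
    obtain ⟨x, hx⟩ := not_forall.1 hc
    have h1 := loc_ev (α := ℕ) π hπ (e := fun _ => e) (x := fun _ => x) (n := fun y => y)
      (by fun_prop) (by fun_prop) (by fun_prop)
    have h2 : Cl a {z' | z' e = z e ∧ ∀ n, ev e (pre (fun j => π (z' j)) n) x ≠ some (b x)} := by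
      refine ⟨_, (((Loc.const (φ := fun _ : ℕ => e) (c_const _)).app).eqB
        (Loc.const (φ := fun _ : ℕ => z e) (c_const _))).and
        (Loc.comp (φ := fun o : Option ℕ => !eqB o (some (b x))) (by fun_prop) h1), fun z' => ?_⟩
      simp [forall_and]
    exact ⟨⟨_, hY.inter h2, z, hz, rfl, fun n hn => hx ⟨n, hn⟩⟩, z e, Set.inter_subset_left,
      fun z' hz' => ⟨hz'.2.1, fun hc' => (hc' x).elim hz'.2.2⟩⟩
  choose next v h1 h2 using step
  let Y : ℕ → {Y : Set (ℕ → ℕ) // Cl a Y ∧ Y.Nonempty} := fun n =>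
    Nat.rec ⟨X, hX, hne⟩ (fun e Y => next e Y) n
  have hanti : Antitone fun n => (Y n).1 := antitone_nat_of_succ_le fun n => h1 n (Y n)
  let z : ℕ → ℕ := fun e => v e (Y e)
  have hz : ∀ n, z ∈ (Y n).1 := fun n => (Y n).2.1.closed fun N => by
    obtain ⟨z', hz'⟩ := (Y (max n N)).2.2
    exact ⟨z', hanti (le_max_left n N) hz', fun j hj =>
      (h2 j (Y j) z' (hanti (show j + 1 ≤ max n N by omega) hz')).1⟩
  obtain ⟨e, he⟩ := red_iff.1 (h z (hz 0))
  exact (h2 e (Y e) z (hz (e + 1))).2 he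

end Pool.Agent.MP_219b86_lc.Hyp
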