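import Pool.Agent.MP_219b86_lc.h36.Defs
import Pool.Agent.MP_219b86_lc.h36.Loc

/-! Embeddings in terms of diagrams; oracles given by sets. -/

namespace Pool.Agent.MP_219b86_lc.Hyp

open Pool.Agent.MP_b427ce_lc Pool.Agent.MP_68d28f_lc Pool.Agent.MP_68d28f_lc.CE FirstOrder
open Encodable

/-- the list with a given code -/
def dl (n : ℕ) : List ℕ := (decode n : Option (List ℕ)).getD []

@[simp] lemma dl_encode (l : List ℕ) : dl (encode l) = l := by simp [dl]

@[simp] lemma encode_dl (n : ℕ) : encode (dl n) = n := by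
  have h := Denumerable.decode_eq_ofNat (List ℕ) n
  have h' : dl n = Denumerable.ofNat (List ℕ) n := by
    unfold dl
    exact (congrArg (fun o : Option (List ℕ) => o.getD []) h).trans rfl
  rw [h']
  exact Denumerable.encode_ofNat n

section comp
variable {α : Type} [Primcodable α] {O : Set (ℕ →. ℕ)}

@[fun_prop] lemma c_dl {f : α → ℕ} (hf : ComputableIn O f) : ComputableIn O fun x => dl (f x) := by
  unfold dl; fun_prop

@[fun_prop] lemma c_code {f g : α → ℕ} {l : α → List ℕ} (hf : ComputableIn O f)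
    (hg : ComputableIn O g) (hl : ComputableIn O l) :
    ComputableIn O fun x => code (f x) (g x) (l x) := by
  unfold code; fun_prop

end comp

/-- the elements named in a sentence -/
def els (c : ℕ) : List ℕ := dl c.unpair.2.unpair.2

/-- the action of a map on codes of sentences -/
def act (g : ℕ → ℕ) (c : ℕ) : ℕ := code c.unpair.1 c.unpair.2.unpair.1 ((els c).map g)

@[simp] lemma els_code (t i : ℕ) (l : List ℕ) : els (code t i l) = l := by simp [els, code]

@[simp] lemma code_fst (t i : ℕ) (l : List ℕ) : (code t i l).unpair.1 = t := by simp [code]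

@[simp] lemma code_snd (t i : ℕ) (l : List ℕ) : (code t i l).unpair.2.unpair.1 = i := by
  simp [code]

@[simp] lemma act_code (g : ℕ → ℕ) (t i : ℕ) (l : List ℕ) :
    act g (code t i l) = code t i (l.map g) := by simp [act]

lemma exists_code (c : ℕ) : ∃ t i l, c = code t i l :=
  ⟨c.unpair.1, c.unpair.2.unpair.1, els c, by simp [code, els]⟩

@[simp] lemma code_inj {t i t' i' : ℕ} {l l' : List ℕ} :
    code t i l = code t' i' l' ↔ t = t' ∧ i = i' ∧ l = l' := by
  simp [code, Nat.pair_eq_pair]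

lemma act_act (g f : ℕ → ℕ) (c : ℕ) : act g (act f c) = act (g ∘ f) c := by
  obtain ⟨t, i, l, rfl⟩ := exists_code c
  simp

variable {fa ra : ℕ → Option ℕ}

lemma mem_diag0 (B : (Lang fa ra).Structure ℕ) (x y : ℕ) :
    code 0 0 [x, y] ∈ diagram B ↔ x = y := by
  simp [diagram, eq_comm]

lemma mem_diag1 (B : (Lang fa ra).Structure ℕ) {n : ℕ} (f : (Lang fa ra).Functions n)
    (v : Fin n → ℕ) (y : ℕ) : code 1 f.1 (y :: List.ofFn v) ∈ diagram B ↔ y = B.funMap f v := by
  constructor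
  · rintro (⟨_, _, h, -⟩ | ⟨m, f', v', y', h, h'⟩ | ⟨_, _, _, h, -⟩)
    · simp at h
    · simp only [code_inj, true_and, List.cons.injEq] at h
      obtain ⟨h1, rfl, h3⟩ := h
      obtain rfl : n = m := by simpa using congrArg List.length h3
      rw [List.ofFn_injective h3, show f = f' from Subtype.ext h1]
      exact h'
    · simp at h
  · exact fun h => Or.inr (Or.inl ⟨n, f, v, y, rfl, h⟩)

lemma mem_diag2 (B : (Lang fa ra).Structure ℕ) {n : ℕ} (r : (Lang fa ra).Relations n)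
    (v : Fin n → ℕ) : code 2 r.1 (List.ofFn v) ∈ diagram B ↔ B.RelMap r v := by
  constructor
  · rintro (⟨_, _, h, -⟩ | ⟨_, _, _, _, h, -⟩ | ⟨m, r', v', h, h'⟩)
    · simp at h
    · simp at h
    · simp only [code_inj, true_and] at h
      obtain ⟨h1, h3⟩ := h
      obtain rfl : n = m := by simpa using congrArg List.length h3
      rw [List.ofFn_injective h3, show r = r' from Subtype.ext h1]
      exact h'
  · exact fun h => Or.inr (Or.inr ⟨n, r, v, rfl, h⟩)

lemma map_eq_ofFn {g : ℕ → ℕ} {l : List ℕ} {n : ℕ} {v : Fin n → ℕ}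
    (h : l.map g = List.ofFn v) : ∃ v' : Fin n → ℕ, l = List.ofFn v' ∧ v = g ∘ v' := by
  obtain rfl : l.length = n := by simpa using congrArg List.length h
  refine ⟨l.get, (List.ofFn_get l).symm, List.ofFn_injective ?_⟩
  rw [← h, ← List.map_ofFn, List.ofFn_get]

lemma diag_of_emb {A C : (Lang fa ra).Structure ℕ} (e : @Language.Embedding _ ℕ ℕ C A) (c : ℕ) :
    c ∈ diagram C ↔ act e c ∈ diagram A := by
  have hi := @Language.Embedding.injective _ ℕ ℕ C A e
  have hf := @Language.Embedding.map_fun _ ℕ ℕ C A e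
  have hr := @Language.Embedding.map_rel _ ℕ ℕ C A e
  constructor
  · rintro (⟨x, y, rfl, rfl⟩ | ⟨n, f, v, y, rfl, rfl⟩ | ⟨n, r, v, rfl, h⟩)
    · simp [mem_diag0]
    · rw [act_code, List.map_cons, List.map_ofFn, mem_diag1]
      exact hf f v
    · rw [act_code, List.map_ofFn, mem_diag2]
      exact (hr r v).2 h
  · obtain ⟨t, i, l, rfl⟩ := exists_code c
    rw [act_code]
    rintro (⟨x, y, h, rfl⟩ | ⟨n, f, v, y, h, rfl⟩ | ⟨n, r, v, h, h'⟩)
    · obtain ⟨rfl, rfl, k⟩ := code_inj.1 h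
      obtain ⟨u, l', rfl, h1, k1⟩ := List.map_eq_cons_iff.1 k
      obtain ⟨w, l'', rfl, h2, k2⟩ := List.map_eq_cons_iff.1 k1
      rw [List.map_eq_nil_iff.1 k2, mem_diag0]
      exact hi (h1.trans h2.symm)
    · obtain ⟨rfl, rfl, k⟩ := code_inj.1 h
      obtain ⟨u, l', rfl, h1, k1⟩ := List.map_eq_cons_iff.1 k
      obtain ⟨v', rfl, rfl⟩ := map_eq_ofFn k1
      rw [mem_diag1]
      exact hi (h1.trans (hf f v').symm)
    · obtain ⟨rfl, rfl, k⟩ := code_inj.1 h
      obtain ⟨v', rfl, rfl⟩ := map_eq_ofFn k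
      rw [mem_diag2]
      exact (hr r v').1 h'

lemma emb_iff {A C : (Lang fa ra).Structure ℕ} : Nonempty (@Language.Embedding _ ℕ ℕ C A) ↔
    ∃ g, ∀ c, c ∈ diagram C ↔ act g c ∈ diagram A := by
  refine ⟨fun ⟨e⟩ => ⟨e, diag_of_emb e⟩, fun ⟨g, h⟩ => ?_⟩
  refine ⟨@Language.Embedding.mk _ ℕ ℕ C A ⟨g, fun x y hxy => ?_⟩ (fun f v => ?_) fun r v => ?_⟩
  · rw [← mem_diag0 C, h]
    simpa [mem_diag0] using hxy
  · have := (h _).1 ((mem_diag1 C f v _).2 rfl)
    rw [act_code, List.map_cons, List.map_ofFn, mem_diag1] at this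
    exact this
  · rw [← mem_diag2 C, h, act_code, List.map_ofFn]
    exact (mem_diag2 A r _).symm

lemma exists_struct (A : (Lang fa ra).Structure ℕ) {g : ℕ → ℕ} (hg : Function.Injective g)
    (F : ℕ → List ℕ → ℕ)
    (h : ∀ i l, fa i = some l.length → act g (code 1 i (F i l :: l)) ∈ diagram A) :
    ∃ C : (Lang fa ra).Structure ℕ, ∀ c, c ∈ diagram C ↔ act g c ∈ diagram A := by
  let C : (Lang fa ra).Structure ℕ :=
    { funMap := fun f v => F f.1 (List.ofFn v), RelMap := fun r v => A.RelMap r (g ∘ v) }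
  refine ⟨C, diag_of_emb (@Language.Embedding.mk _ ℕ ℕ C A ⟨g, hg⟩ (fun f v => ?_)
    fun _ _ => Iff.rfl)⟩
  have := h f.1 (List.ofFn v) (by simpa using f.2)
  rw [act_code, List.map_cons, List.map_ofFn, mem_diag1] at this
  exact this

lemma exists_table (B : (Lang fa ra).Structure ℕ) : ∃ F : ℕ → List ℕ → ℕ,
    ∀ i l, fa i = some l.length → code 1 i (F i l :: l) ∈ diagram B := by
  classical
  refine ⟨fun i l => if h : fa i = some l.length then B.funMap ⟨i, h⟩ l.get else 0,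
    fun i l h => ?_⟩
  have := (mem_diag1 B ⟨i, h⟩ l.get _).2 rfl
  rw [List.ofFn_get] at this
  simpa only [dif_pos h] using this

lemma BiEmb.iff {A B : (Lang fa ra).Structure ℕ} : BiEmb A B ↔
    (∃ g, ∀ c, c ∈ diagram A ↔ act g c ∈ diagram B) ∧
      ∃ g, ∀ c, c ∈ diagram B ↔ act g c ∈ diagram A := and_congr emb_iff emb_iff

lemma BiEmb.symm {L : Language.{0, 0}} {A B : L.Structure ℕ} (h : BiEmb A B) : BiEmb B A :=
  ⟨h.2, h.1⟩

lemma BiEmb.trans {L : Language.{0, 0}} {A B C : L.Structure ℕ} (h : BiEmb A B)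
    (h' : BiEmb B C) : BiEmb A C :=
  ⟨⟨@Language.Embedding.comp _ ℕ ℕ A B ℕ C h'.1.some h.1.some⟩,
    ⟨@Language.Embedding.comp _ ℕ ℕ C B ℕ A h.2.some h'.2.some⟩⟩

lemma red_iff_chi {S T : Set ℕ} :
    TuringReducible (chi S) (chi T) ↔ Red (CE.chi S) (CE.chi T) := Iff.rfl

lemma chi_eq_one {S : Set ℕ} {n : ℕ} : CE.chi S n = 1 ↔ n ∈ S :=
  ⟨fun h => not_not.1 fun h' => by rw [chi_notMem h'] at h; simp at h, chi_mem⟩

lemma chi_eq_zero {S : Set ℕ} {n : ℕ} : CE.chi S n = 0 ↔ n ∉ S :=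
  ⟨fun h h' => by rw [chi_mem h'] at h; simp at h, chi_notMem⟩

lemma chi_congr {S T : Set ℕ} {m n : ℕ} : CE.chi S m = CE.chi T n ↔ (m ∈ S ↔ n ∈ T) := by
  by_cases h : m ∈ S <;> by_cases h' : n ∈ T <;> simp [chi_mem, chi_notMem, h, h']

lemma red_chi_of_bool {O : Set (ℕ →. ℕ)} {S : Set ℕ} {p : ℕ → Bool} (hp : ComputableIn O p)
    (h : ∀ n, n ∈ S ↔ p n = true) : ComputableIn O (CE.chi S) := by
  refine cin_of_eq (c_toNat hp) fun n => ?_
  cases e : p n
  · exact (chi_notMem (by simp [h, e])).symm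
  · exact (chi_mem (by simp [h, e])).symm

lemma hypIn_of_ana {a b : Set ℕ} (h : Ana (CE.chi a) (CE.chi b)) : HypIn b a := by
  obtain ⟨R, hR, h⟩ := h
  have key : ∀ v, TuringReducible (chi {m | R (m.unpair.1, v) (dl m.unpair.2) = true}) (chi a) :=
    fun v => red_chi_of_bool (O := orc (CE.chi a))
      (c_comp hR (g := fun m : ℕ => ((m.unpair.1, v), dl m.unpair.2)) (by fun_prop))
      fun _ => Iff.rfl
  refine ⟨⟨_, key 1, fun n => ?_⟩, ⟨_, key 0, fun n => ?_⟩⟩
  · rw [← chi_eq_one, h]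
    simp [pre]
  · rw [Set.mem_compl_iff, ← chi_eq_zero, h]
    simp [pre]

end Pool.Agent.MP_219b86_lc.Hyp
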