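import Pool.Agent.MP_219b86_lc.h36.Diag

/-! If the spectrum is the union of two cones, the bases are hyperarithmetic in each other. -/

namespace Pool.Agent.MP_219b86_lc.Hyp

open Pool.Agent.MP_b427ce_lc Pool.Agent.MP_68d28f_lc Pool.Agent.MP_68d28f_lc.CE FirstOrder
open Encodable

/-- the projections of a coded quintuple -/
def pj (k n : ℕ) : ℕ := (natIter n (fun _ u => u.unpair.2) k).unpair.1

lemma c_pj {O : Set (ℕ →. ℕ)} (k : ℕ) : ComputableIn O (pj k) := by
  unfold pj; fun_prop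

lemma loc_act {a : ℕ → ℕ} (k : ℕ) : Loc a fun z c => act (fun j => pj k (z j)) c := by
  have h := c_pj (O := orc a) k
  have h1 : Loc a fun z c => (els c).map z :=
    (Loc.const (φ := els) (by unfold els; fun_prop)).map
  exact (Loc.comp₂ (φ := fun (c : ℕ) (l : List ℕ) =>
    code c.unpair.1 c.unpair.2.unpair.1 (l.map (pj k))) (by fun_prop) h1).of_eq
    fun z c => by simp [act, Function.comp_def]

lemma cl_of {a : ℕ → ℕ} {Q : (ℕ → ℕ) → ℕ → Bool} (h : Loc a Q) {X : Set (ℕ → ℕ)}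
    (hX : ∀ z, z ∈ X ↔ ∀ m n, Q z (Nat.pair m n) = true) : Cl a X :=
  ⟨Q, h, fun z => (hX z).trans ⟨fun h m => by rw [← Nat.pair_unpair m]; exact h _ _,
    fun h _ _ => h _⟩⟩

lemma Loc.pj {α : Type} [Primcodable α] {a : ℕ → ℕ} {u : (ℕ → ℕ) → α → ℕ} (h : Loc a u)
    (k : ℕ) : Loc a fun z x => pj k (z (u z x)) := Loc.comp (c_pj k) h.app

theorem nec {fa ra : ℕ → Option ℕ} (hfa : Computable fa) (A0 : (Lang fa ra).Structure ℕ)
    {a b : Set ℕ} (hab : ¬ TuringReducible (chi a) (chi b))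
    (H : ∀ d : Set ℕ, (∃ B, BiEmb A0 B ∧ TuringEquivalent (chi (diagram B)) (chi d)) ↔
      (TuringReducible (chi a) (chi d) ∨ TuringReducible (chi b) (chi d))) : HypIn b a := by
  obtain ⟨A, hA, hA1, -⟩ := (H a).2 (Or.inl (TuringReducible.refl _))
  obtain ⟨B, hB, hB1, -⟩ := (H b).2 (Or.inr (TuringReducible.refl _))
  set α := CE.chi a with hα
  set DA := CE.chi (diagram A) with hDA
  have cA : ComputableIn (orc α) DA := hA1
  have cα : ComputableIn (orc α) α := Red.refl α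
  have cf : ComputableIn (orc α) fa := hfa.computableIn
  have c0 := c_pj (O := orc α) 0
  have lid : Loc α fun _ (m : ℕ) => m := Loc.const c_id
  have l1 : Loc α fun _ (m : ℕ) => m.unpair.1 := Loc.const (by fun_prop)
  have l2 : Loc α fun _ (m : ℕ) => m.unpair.2 := Loc.const (by fun_prop)
  have X1 : Cl α {z | ∀ c, pj 0 (z c) = DA (act (fun j => pj 2 (z j)) c)} :=
    ⟨_, (lid.pj 0).eqB (Loc.comp cA (loc_act 2)), fun z => by simp⟩
  have X2 : Cl α {z | ∀ c, DA c = pj 0 (z (act (fun j => pj 1 (z j)) c))} :=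
    ⟨_, (Loc.const cA).eqB ((loc_act 1).pj 0), fun z => by simp⟩
  have X3 : Cl α {z | ∀ i l, fa i = some l.length →
      pj 0 (z (code 1 i (pj 3 (z (Nat.pair i (encode l))) :: l))) = 1} := by
    refine cl_of (Loc.comp₂ (φ := fun (m v : ℕ) =>
      !eqB (fa m.unpair.1) (some (dl m.unpair.2).length) || eqB v 1) (by fun_prop)
      ((Loc.comp₂ (φ := fun (m v : ℕ) => code 1 m.unpair.1 (v :: dl m.unpair.2)) (by fun_prop)
        (lid.pj 3)).pj 0)) fun z => ⟨fun h m n => ?_, fun h i l hl => ?_⟩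
    · have := h m (dl n)
      simp only [encode_dl] at this
      simpa [← imp_iff_not_or] using this
    · simpa [hl] using h i (encode l)
  have X4 : Cl α {z | ∀ e n, ev e (pre (fun j => pj 0 (z j)) n) (pj 4 (z e)) ≠
      some (α (pj 4 (z e)))} := by
    refine cl_of (Loc.comp₂ (φ := fun (m : ℕ) (p : List ℕ × ℕ) =>
      !eqB (ev m.unpair.1 (p.1.map (pj 0)) p.2) (some (α p.2))) (by fun_prop)
      (l2.seg.pair (l1.pj 4))) fun z => ?_
    simp [map_pre]
  have X5 : Cl α {z | ∀ x y, pj 2 (z x) = pj 2 (z y) → x = y} := by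
    refine cl_of (Loc.comp₂ (φ := fun (m : ℕ) (p : ℕ × ℕ) =>
      !eqB p.1 p.2 || eqB m.unpair.1 m.unpair.2) (by fun_prop)
      ((l1.pj 2).pair (l2.pj 2))) fun z => ?_
    simp [← imp_iff_not_or]
  refine hypIn_of_ana (ana_of_red (X1.inter (X2.inter (X3.inter (X4.inter X5)))) ?_ c0 ?_)
  · obtain ⟨⟨f, hf⟩, g, hg⟩ := BiEmb.iff.1 (hA.symm.trans hB)
    obtain ⟨F, hF⟩ := exists_table B
    have hn : ∀ e, ∃ x, ∀ n, ev e (pre (CE.chi (diagram B)) n) x ≠ some (α x) := fun e => by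
      by_contra hh
      refine hab (Red.trans (red_iff.2 ⟨e, fun x => ?_⟩) hB1)
      by_contra h'
      exact hh ⟨x, fun n hn => h' ⟨n, hn⟩⟩
    choose h hh using hn
    refine ⟨fun n => Nat.pair (CE.chi (diagram B) n) (Nat.pair (f n) (Nat.pair (g n)
      (Nat.pair (F n.unpair.1 (dl n.unpair.2)) (Nat.pair (h n) 0)))), fun c => ?_, fun c => ?_,
      fun i l hl => ?_, fun e n => ?_, fun x y hxy => ?_⟩
    · simp only [pj, natIter, Nat.unpair_pair]
      exact chi_congr.2 (hg c)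
    · simp only [pj, natIter, Nat.unpair_pair]
      exact chi_congr.2 (hf c)
    · simp only [pj, natIter, Nat.unpair_pair, dl_encode]
      exact chi_mem (hF i l hl)
    · simp only [pj, natIter, Nat.unpair_pair]
      exact hh e n
    · simp only [pj, natIter, Nat.unpair_pair] at hxy
      rw [← mem_diag0 B, hg]
      simpa [mem_diag0] using hxy
  · rintro z ⟨h1, h2, h3, h4, h5⟩
    obtain ⟨C, hC⟩ := exists_struct A (g := fun j => pj 2 (z j)) h5
      (fun i l => pj 3 (z (Nat.pair i (encode l)))) fun i l hl => by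
        rw [← chi_eq_one, ← hDA, ← h1]
        exact h3 i l hl
    have e0 : (fun j => pj 0 (z j)) = CE.chi (diagram C) :=
      funext fun c => (h1 c).trans (chi_congr.2 (hC c).symm)
    have hAC : BiEmb A C := BiEmb.iff.2 ⟨⟨_, fun c => chi_congr.1
      ((h2 c).trans (congrFun e0 _))⟩, _, hC⟩
    rw [e0]
    refine ((H _).1 ⟨C, hA.trans hAC, TuringEquivalent.refl _⟩).resolve_left fun h => ?_
    obtain ⟨e, he⟩ := red_iff.1 (red_iff_chi.1 h)
    obtain ⟨n, hn⟩ := he (pj 4 (z e))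
    exact h4 e n (e0 ▸ hn)

end Pool.Agent.MP_219b86_lc.Hyp
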