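import Pool.Agent.MP_219b86_lc.h36.Tow

/-! The spectrum of the towers is the union of two cones. -/

namespace Pool.Agent.MP_219b86_lc.Hyp

open Pool.Agent.MP_b427ce_lc Pool.Agent.MP_68d28f_lc Pool.Agent.MP_68d28f_lc.CE FirstOrder
open Encodable

/-- the relational language with infinitely many symbols of each arity -/
abbrev LL : Language := Lang (fun _ => none) fun i => some i.unpair.1

/-- the structure given by a family of relations on lists -/
@[reducible] def mkS (P : ℕ → List ℕ → Prop) : LL.Structure ℕ where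
  funMap f := absurd f.2 (by simp)
  RelMap r v := P r.1.unpair.2 (List.ofFn v)

lemma mem_mkS (P : ℕ → List ℕ → Prop) (t i : ℕ) (l : List ℕ) : code t i l ∈ diagram (mkS P) ↔
    (t = 0 ∧ i = 0 ∧ l = [l.getD 0 0, l.getD 0 0]) ∨
      (t = 2 ∧ i.unpair.1 = l.length ∧ P i.unpair.2 l) := by
  constructor
  · rintro (⟨x, y, h, rfl⟩ | ⟨n, f, -⟩ | ⟨n, r, v, h, h'⟩)
    · obtain ⟨rfl, rfl, rfl⟩ := code_inj.1 h
      exact Or.inl ⟨rfl, rfl, rfl⟩
    · exact absurd f.2 (by simp)
    · obtain ⟨rfl, rfl, rfl⟩ := code_inj.1 h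
      exact Or.inr ⟨rfl, by simpa using r.2, h'⟩
  · rintro (⟨rfl, rfl, h⟩ | ⟨rfl, h, h'⟩)
    · exact Or.inl ⟨_, _, congrArg _ h, rfl⟩
    · refine Or.inr (Or.inr ⟨l.length, ⟨i, congrArg some h⟩, l.get, by rw [List.ofFn_get], ?_⟩)
      show P _ _
      rwa [List.ofFn_get]

lemma emb_mkS {P P' : ℕ → List ℕ → Prop} {G : ℕ → ℕ} (hG : Function.Injective G)
    (h : ∀ m l, P' m (l.map G) ↔ P m l) :
    Nonempty (@Language.Embedding _ ℕ ℕ (mkS P) (mkS P')) := by
  refine ⟨@Language.Embedding.mk _ ℕ ℕ (mkS P) (mkS P') ⟨G, hG⟩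
    (fun f => absurd f.2 (by simp)) fun r v => ?_⟩
  show P' _ (List.ofFn (G ∘ v)) ↔ P _ _
  rw [← List.map_ofFn, h]

/-- the code of a relational sentence -/
def rc (m : ℕ) (l : List ℕ) : ℕ := code 2 (Nat.pair l.length m) l

lemma rc_mem (P : ℕ → List ℕ → Prop) (m : ℕ) (l : List ℕ) :
    rc m l ∈ diagram (mkS P) ↔ P m l := by simp [rc, mem_mkS]

lemma act_rc (g : ℕ → ℕ) (m : ℕ) (l : List ℕ) : act g (rc m l) = rc m (l.map g) := by simp [rc]

section comp
variable {α : Type} [Primcodable α] {O : Set (ℕ →. ℕ)}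

@[fun_prop] lemma c_iter {n v : α → ℕ} (hn : ComputableIn O n) (hv : ComputableIn O v) :
    ComputableIn O fun x => down^[n x] (v x) := by
  refine cin_of_eq (f := fun x => natIter (v x) (fun _ u => u.unpair.2.unpair.2) (n x))
    (by fun_prop) fun x => ?_
  induction n x with
  | zero => rfl
  | succ k ih => rw [Function.iterate_succ_apply', ← ih]; rfl

@[fun_prop] lemma c_lev {f : α → ℕ} (hf : ComputableIn O f) :
    ComputableIn O fun x => lev (f x) := by unfold lev; fun_prop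

@[fun_prop] lemma c_col {f : α → ℕ} (hf : ComputableIn O f) :
    ComputableIn O fun x => col (f x) := by unfold col; fun_prop

@[fun_prop] lemma c_lab {f g : α → ℕ} (hf : ComputableIn O f) (hg : ComputableIn O g) :
    ComputableIn O fun x => lab (f x) (g x) := by unfold lab; fun_prop

@[fun_prop] lemma c_els {f : α → ℕ} (hf : ComputableIn O f) :
    ComputableIn O fun x => els (f x) := by unfold els; fun_prop

end comp

lemma red_diagram {O : Set (ℕ →. ℕ)} {ε : ℕ} {γ : ℕ → ℕ} {R : ℕ → List ℕ → Bool} {d : Set ℕ}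
    (hγ : ComputableIn O γ) (hR : ComputableIn O fun p : ℕ × List ℕ => R p.1 p.2)
    (hd : ComputableIn O (CE.chi d)) :
    ComputableIn O (CE.chi (diagram (mkS (Rel (Valid ε γ R) (Junk d))))) := by
  let v : ℕ → Bool := fun x => eqB x.unpair.1 0 && (eqB (lev x % 2) ε &&
    (eqB (lab (lev x) x) (pre γ (col x).length) && (List.range (lev x)).all fun i =>
      R i ((col x).map fun u => down^[lev x - (i + 1)] u)))
  have cv : ComputableIn O v := by
    refine c_and (by fun_prop) (c_and (by fun_prop) (c_and (by fun_prop) (c_all (by fun_prop) ?_)))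
    exact c_comp hR (g := fun p : ℕ × ℕ =>
      (p.2, (col p.1).map fun u => down^[lev p.1 - (p.2 + 1)] u)) (by fun_prop)
  have hv : ∀ x, v x = true ↔ Valid ε γ R x := fun x => by simp [v, Valid]
  let j : ℕ → Bool := fun x => eqB x.unpair.1 2 || (eqB x.unpair.1 1 && eqB (CE.chi d x.unpair.2) 1)
  have cj : ComputableIn O j := by fun_prop
  have hj : ∀ x, j x = true ↔ Junk d x := fun x => by simp [j, Junk, chi_eq_one]
  let k : ℕ × List ℕ → Bool := fun p => p.2.any fun x => p.2.any fun y =>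
    !preB (lab p.1 x) (lab p.1 y) && !preB (lab p.1 y) (lab p.1 x)
  have ck : ComputableIn O k := by fun_prop
  have hk : ∀ i l, k (i, l) = true ↔ Clash i l := fun i l => by
    simp [k, Clash, ← Bool.not_eq_true]
  let r : ℕ × List ℕ → Bool := fun p => !eqB p.2 [] && ((eqB p.1.unpair.1 0 && j (p.2.getD 0 0)) ||
    ((p.2.all fun y => v y && eqB (lev y) (lev (p.2.getD 0 0))) &&
      ((eqB p.1.unpair.1 1 && p.2.all fun y => preB (col (p.2.getD 0 0)) (col y)) ||
        (eqB p.1.unpair.1 2 && (((List.range p.1.unpair.2.unpair.1).all fun i => k (i, p.2)) &&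
          eqB (encode (lab p.1.unpair.2.unpair.1 (p.2.getD 0 0))) p.1.unpair.2.unpair.2)))))
  have hr : ∀ m l, r (m, l) = true ↔ Rel (Valid ε γ R) (Junk d) m l := fun m l => by
    simp only [r, Rel, Bool.and_eq_true, Bool.or_eq_true, Bool.not_eq_true', eqB_false_iff,
      eqB_iff, List.all_eq_true, hv, hj, hk, preB_iff, List.mem_range]
  clear_value v j k
  have cr : ComputableIn O r := by fun_prop
  clear_value r
  refine red_chi_of_bool (p := fun c => (eqB c.unpair.1 0 && (eqB c.unpair.2.unpair.1 0 &&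
    eqB (els c) [(els c).getD 0 0, (els c).getD 0 0])) || (eqB c.unpair.1 2 &&
      (eqB c.unpair.2.unpair.1.unpair.1 (els c).length &&
        r (c.unpair.2.unpair.1.unpair.2, els c)))) (by fun_prop) fun c => ?_
  obtain ⟨t, i, l, rfl⟩ := exists_code c
  simp only [mem_mkS, code_fst, code_snd, els_code, Bool.and_eq_true, Bool.or_eq_true, eqB_iff,
    hr]

lemma red_junk (V : ℕ → Prop) (d : Set ℕ) :
    Red (CE.chi d) (CE.chi (diagram (mkS (Rel V (Junk d))))) := by
  refine cin_of_eq (c_comp (Red.refl _) (g := fun n => rc 0 [Nat.pair 1 n])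
    (by unfold rc; fun_prop)) fun n => chi_congr.2 ?_
  simp [rc_mem, Rel, Junk]

lemma Clash.mono {i : ℕ} {l l' : List ℕ} (h : Clash i l) (hl : l ⊆ l') : Clash i l' := by
  obtain ⟨x, hx, y, hy, h⟩ := h
  exact ⟨x, hl hx, y, hl hy, h⟩

theorem decode_tower {c w : ℕ → ℕ → ℕ} {R : ℕ → List ℕ → Bool} (hc : ∀ j, c j = c (j % 2))
    (hs : ∀ i, Single (c i) (c (i + 1)) (R i) (w i)) {J : ℕ → Prop} {D : Set ℕ} {f g : ℕ → ℕ}
    (hf : ∀ m l, Rel (Valid 0 (c 0) R) J m l ↔ rc m (l.map f) ∈ D)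
    (hg : ∀ m l, rc m l ∈ D ↔ Rel (Valid 0 (c 0) R) J m (l.map g)) :
    ∃ i, Red (c i) (CE.chi D) := by
  classical
  let x : ℕ → ℕ := fun n => Nat.pair 0 (Nat.pair 0 (encode (pre (fun k => Nat.pair (c 0 k) 0) n)))
  have x1 : ∀ n, lev (x n) = 0 := fun n => by simp [x, lev]
  have x2 : ∀ n, col (x n) = pre (fun k => Nat.pair (c 0 k) 0) n := fun n => by simp [x, col]
  have x3 : ∀ n, lab 0 (x n) = pre (c 0) n := fun n => by simp [lab, x1, x2, map_pre]
  have x4 : ∀ n, Valid 0 (c 0) R (x n) := fun n =>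
    ⟨by simp [x], by simp [x1], by simp [x1, x2, x3], by simp [x1]⟩
  let y : ℕ → ℕ := fun n => g (f (x n))
  have y1 : ∀ n n', n ≤ n' → Valid 0 (c 0) R (y n') ∧ lev (y n') = lev (y n) ∧
      col (y n) <+: col (y n') := by
    intro n n' hn
    have := (hg _ _).1 ((hf (Nat.pair 1 0) [x n, x n']).1 (by
      simp [Rel, x1, x2, x4, pre_isPrefix _ hn]))
    simp [Rel] at this
    exact ⟨this.1.2.1, this.1.2.2, this.2⟩
  have y2 : ∀ n, (col (y n)).length = n := by
    intro n
    have := (hg _ _).1 ((hf (Nat.pair 2 (Nat.pair 0 (encode (pre (c 0) n)))) [x n]).1 (by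
      simp [Rel, x3, x4]))
    simp [Rel] at this
    simpa [lab] using congrArg List.length this.2
  set N := lev (y 0) with hN
  have y3 : ∀ n, Valid 0 (c 0) R (y n) := fun n => (y1 0 n (Nat.zero_le n)).1
  have y4 : ∀ n, lev (y n) = N := fun n => (y1 0 n (Nat.zero_le n)).2.1
  let Z : ℕ → ℕ := fun k => (col (y (k + 1))).getD k 0
  have y5 : ∀ n, col (y n) = pre Z n := fun n => eq_pre_of (d := 0) (y2 n) fun j hj =>
    getD_of_isPrefix (y1 (j + 1) n hj).2.2 (by rw [y2]; omega) 0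
  have y6 : ∀ s ≤ N, ∀ k, (down^[s] (Z k)).unpair.1 = c (N - s) k := by
    intro s
    induction s with
    | zero =>
      intro _ k
      have h1 := congrArg (fun l : List ℕ => l.getD k 0) (y3 (k + 1)).2.2.1
      have h2 := (y3 0).2.1
      simp only [lab, y5, map_pre, length_pre, getD_pre _ (Nat.lt_succ_self k),
        Nat.sub_self] at h1
      rw [h1, Nat.sub_zero, hc N, h2]
    | succ s ih =>
      intro hs' k
      rw [Function.iterate_succ_apply']
      refine (hs (N - (s + 1))).2 (fun n => down^[s] (Z n)) (fun n => ?_) (fun n => ?_) k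
      · rw [ih (by omega), show N - (s + 1) + 1 = N - s by omega]
      · have := (y3 n).2.2.2 (N - (s + 1)) (by rw [y4]; omega)
        rwa [y4, y5, map_pre, show N - (N - (s + 1) + 1) = s by omega] at this
  have y7 : ∀ i ≤ N, ∀ n, lab i (y n) = pre (c i) n := fun i hi n => by
    rw [lab, y4, y5, map_pre]
    exact pre_congr fun k _ => by rw [y6 _ (by omega), show N - (N - i) = i by omega]
  let K : ℕ → Prop := fun u => Valid 0 (c 0) R (g u) ∧ lev (g u) = N
  have hN' : ∀ L : List ℕ, (∀ u ∈ L, K u) → ¬ Clash N (L.map g) := fun L hL =>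
    not_clash (List.forall_mem_map.2 hL)
  have hex : ∃ i, ∀ L : List ℕ, (∀ u ∈ L, K u) → ¬ Clash i (L.map g) := ⟨N, hN'⟩
  have hi : Nat.find hex ≤ N := Nat.find_min' hex hN'
  have hsp := Nat.find_spec hex
  have hL : ∀ n ≤ Nat.find hex, ∃ L : List ℕ, (∀ u ∈ L, K u) ∧ ∀ i < n, Clash i (L.map g) := by
    intro n
    induction n with
    | zero => exact fun _ => ⟨[], by simp, by simp⟩
    | succ n ih =>
      intro hn
      obtain ⟨L, h1, h2⟩ := ih (by omega)
      have := Nat.find_min hex (show n < Nat.find hex by omega)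
      push Not at this
      obtain ⟨L', h3, h4⟩ := this
      refine ⟨L ++ L', List.forall_mem_append.2 ⟨h1, h3⟩, fun i hi => ?_⟩
      rw [List.map_append]
      rcases Nat.lt_succ_iff_lt_or_eq.1 hi with hi | rfl
      · exact (h2 i hi).mono (List.subset_append_left _ _)
      · exact h4.mono (List.subset_append_right _ _)
  obtain ⟨L, h1, h2⟩ := hL _ le_rfl
  generalize Nat.find hex = i at hi hsp h2
  have key : ∀ u s, rc (Nat.pair 2 (Nat.pair i s)) (u :: f (x 0) :: L) ∈ D ↔
      K u ∧ encode (lab i (g u)) = s := by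
    intro u s
    rw [hg]
    constructor
    · intro h
      simp [Rel] at h
      exact ⟨⟨h.1.1, h.1.2.1.2.symm⟩, h.2.2⟩
    · rintro ⟨⟨k1, k2⟩, k3⟩
      refine ⟨by simp, Or.inr ⟨?_, Or.inr ⟨by simp, fun j hj => ?_, by simpa using k3⟩⟩⟩
      · simp only [List.map_cons, List.getD_cons_zero, List.forall_mem_cons, k2,
          List.forall_mem_map]
        exact ⟨⟨k1, trivial⟩, ⟨y3 0, rfl⟩, h1⟩
      · exact (h2 j (by simpa using hj)).mono fun z hz => by simp [hz]
  have hD : ComputableIn (orc (CE.chi D)) (CE.chi D) := Red.refl _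
  refine ⟨i, c_search (P := fun k m => eqB (CE.chi D (rc (Nat.pair 2 (Nat.pair i m.unpair.2))
    (m.unpair.1 :: f (x 0) :: L))) 1 && leB (k + 1) (dl m.unpair.2).length)
    (v := fun k m => (dl m.unpair.2).getD k 0) (by unfold rc; fun_prop) (by fun_prop)
    (fun k => ⟨Nat.pair (f (x (k + 1))) (encode (pre (c i) (k + 1))), ?_⟩) fun k m hm => ?_⟩
  · simp only [Nat.unpair_pair, dl_encode, length_pre, Bool.and_eq_true, eqB_iff, leB_iff,
      chi_eq_one, key, le_refl, and_true]
    exact ⟨⟨y3 _, y4 _⟩, congrArg encode (y7 i hi _)⟩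
  · simp only [Bool.and_eq_true, eqB_iff, leB_iff, chi_eq_one, key] at hm
    obtain ⟨⟨k1, k2⟩, k3⟩ := hm
    rw [← k2, dl_encode] at k3 ⊢
    rw [← getD_pre (c i) (Nat.lt_succ_self k) 0, ← y7 i hi]
    by_cases k4 : lab i (g m.unpair.1) <+: lab i (y (k + 1))
    · exact (getD_of_isPrefix k4 k3 0).symm
    · refine getD_of_isPrefix (not_not.1 fun k5 => ?_) (by rw [y7 i hi]; simp) 0
      refine hsp [m.unpair.1, f (x (k + 1))] ?_ ⟨_, by simp, _, by simp [y], k4, k5⟩
      simp only [List.forall_mem_cons]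
      exact ⟨k1, ⟨y3 _, y4 _⟩, by simp⟩

theorem suf {a b : Set ℕ} (hab : HypIn a b) (hba : HypIn b a) : ∃ A : LL.Structure ℕ,
    ∀ d : Set ℕ, (∃ B, BiEmb A B ∧ TuringEquivalent (chi (diagram B)) (chi d)) ↔
      (TuringReducible (chi a) (chi d) ∨ TuringReducible (chi b) (chi d)) := by
  obtain ⟨R0, w0, c0, s0⟩ := exists_single hab
  obtain ⟨R1, w1, c1, s1⟩ := exists_single hba
  let c : ℕ → ℕ → ℕ := fun j => if j % 2 = 0 then CE.chi a else CE.chi b
  let w : ℕ → ℕ → ℕ := fun j => if j % 2 = 0 then w0 else w1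
  let R : ℕ → List ℕ → Bool := fun j l => cond (eqB (j % 2) 0) (R0 l) (R1 l)
  have hc : ∀ j, c j = c (j % 2) := fun j => by simp [c]
  have hs : ∀ i, Single (c i) (c (i + 1)) (R i) (w i) := fun i => by
    by_cases h : i % 2 = 0
    · have h' : ¬ (i + 1) % 2 = 0 := by omega
      simpa only [c, w, R, h, h', if_true, if_false, eqB_iff.2 rfl, cond_true] using s0
    · have h' : (i + 1) % 2 = 0 := by omega
      simpa only [c, w, R, h, h', if_true, if_false, eqB_false_iff.2 h, cond_false] using s1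
  have hR : ∀ γ, ComputableIn (orc γ) fun p : ℕ × List ℕ => R p.1 p.2 := fun γ => by
    have k0 := cin_trans c0 (h := γ) (c_const 0)
    have k1 := cin_trans c1 (h := γ) (c_const 0)
    fun_prop
  have emb : ∀ ε ε' d d', ε + ε' = 1 → BiEmb (mkS (Rel (Valid ε (c ε) R) (Junk d)))
      (mkS (Rel (Valid ε' (c ε') R) (Junk d'))) := by
    intro ε ε' d d' h
    obtain ⟨G, h1, h2⟩ := exists_map hc hs h d d'
    obtain ⟨G', h1', h2'⟩ := exists_map hc hs (add_comm ε ε' ▸ h) d' d
    exact ⟨emb_mkS h1 h2, emb_mkS h1' h2'⟩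
  refine ⟨mkS (Rel (Valid 0 (c 0) R) (Junk ∅)), fun d => ⟨?_, ?_⟩⟩
  · rintro ⟨B, hB, h3, -⟩
    obtain ⟨⟨f, hf⟩, g, hg⟩ := BiEmb.iff.1 hB
    obtain ⟨i, hi⟩ := decode_tower hc hs (D := diagram B) (f := f) (g := g)
      (fun m l => by rw [← act_rc, ← hf, rc_mem]) fun m l => by rw [hg, act_rc, rc_mem]
    have := hi.trans (red_iff_chi.1 h3)
    by_cases h : i % 2 = 0
    · exact Or.inl (red_iff_chi.2 (by simpa only [c, h, if_true] using this))
    · exact Or.inr (red_iff_chi.2 (by simpa only [c, h, if_false] using this))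
  · rintro (h | h)
    · exact ⟨_, (emb 0 1 ∅ ∅ rfl).trans (emb 1 0 ∅ d rfl),
        red_diagram (O := orc (CE.chi d)) h (hR _) (Red.refl _), red_junk _ d⟩
    · exact ⟨_, emb 0 1 ∅ d rfl, red_diagram (O := orc (CE.chi d)) h (hR _) (Red.refl _),
        red_junk _ d⟩

end Pool.Agent.MP_219b86_lc.Hyp
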