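import Pool.Agent.MP_219b86_lc.h36.Diag

/-! Towers of labels: the structures and the embeddings between them. -/

namespace Pool.Agent.MP_219b86_lc.Hyp

open Pool.Agent.MP_b427ce_lc Pool.Agent.MP_68d28f_lc Pool.Agent.MP_68d28f_lc.CE FirstOrder
open Encodable

/-- a computable tree whose paths over the oracle `q` single out `p` -/
def Single (p q : ℕ → ℕ) (R : List ℕ → Bool) (w : ℕ → ℕ) : Prop :=
  (∀ u : ℕ → ℕ, (∀ n, (u n).unpair.1 = p n) →
    ∀ k, R (pre (fun n => Nat.pair (q n) (Nat.pair (w n) (u n))) k) = true) ∧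
  ∀ Z : ℕ → ℕ, (∀ n, (Z n).unpair.1 = q n) → (∀ k, R (pre Z k) = true) →
    ∀ n, (Z n).unpair.2.unpair.2.unpair.1 = p n

lemma exists_single {a b : Set ℕ} (h : HypIn a b) :
    ∃ R w, ComputableIn (orc fun _ => 0) R ∧ Single (CE.chi a) (CE.chi b) R w := by
  obtain ⟨⟨R1, r1, h1⟩, R0, r0, h0⟩ := h
  obtain ⟨e1, he1⟩ := red_iff.1 (red_iff_chi.1 r1)
  obtain ⟨e0, he0⟩ := red_iff.1 (red_iff_chi.1 r0)
  have l1 : Loc (fun _ => 0) fun Z (y : ℕ × ℕ) => Z y.2.unpair.1 := (Loc.const (by fun_prop)).app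
  have l2 : Loc (fun _ => 0) fun Z (y : ℕ × ℕ) =>
      ((List.range y.2.unpair.2.unpair.1).map (Nat.pair y.2.unpair.1)).map Z :=
    (Loc.const (by fun_prop)).map
  have l3 : Loc (fun _ => 0) fun Z (y : ℕ × ℕ) => pre Z y.2.unpair.2.unpair.2 :=
    (Loc.const (by fun_prop)).seg
  obtain ⟨R, hR, hR'⟩ := (Loc.comp₂ (φ := fun (y : ℕ × ℕ) (s : ℕ × List ℕ × List ℕ) =>
    leB s.1.unpair.2.unpair.2.unpair.1 1 &&
      !eqB (ev (cond (eqB s.1.unpair.2.unpair.2.unpair.1 1) e1 e0) (s.2.2.map fun v => v.unpair.1)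
        (Nat.pair y.2.unpair.1 (encode (s.2.1.map fun v => v.unpair.2.unpair.1)))) (some 0))
    (by fun_prop) (l1.pair (l2.pair l3))).tree
  have hw : ∀ n, ∃ z : ℕ → ℕ, ∀ k, Nat.pair n (encode ((List.range k).map z)) ∈
      cond (eqB (CE.chi a n) 1) R1 R0 := by
    intro n
    by_cases hn : n ∈ a
    · simpa [chi_mem hn, eqB] using (h1 n).1 hn
    · simpa [chi_notMem hn, eqB] using (h0 n).1 hn
  choose z hz using hw
  refine ⟨R 0, fun n => z n.unpair.1 n.unpair.2, c_comp hR (g := fun l => (0, l)) (by fun_prop),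
    fun u hu => (hR' _ 0).2 fun m => ?_, fun Z hZ hk n => ?_⟩
  · simp only [Nat.unpair_pair, hu, map_pre, List.map_map, Function.comp_def, Bool.and_eq_true,
      leB_iff, Bool.not_eq_true', eqB_false_iff]
    refine ⟨chi_le_one _ _, fun hh => ?_⟩
    have := hz m.unpair.1 m.unpair.2.unpair.1
    cases e : eqB (CE.chi a m.unpair.1) 1 <;> rw [e] at hh this
    · exact chi_eq_zero.1 (he0.eq hh).symm this
    · exact chi_eq_zero.1 (he1.eq hh).symm this
  · have key : ∀ j m, (Z n).unpair.2.unpair.2.unpair.1 ≤ 1 ∧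
        ev (cond (eqB (Z n).unpair.2.unpair.2.unpair.1 1) e1 e0) (pre (CE.chi b) m) (Nat.pair n
          (encode ((List.range j).map fun i => (Z (Nat.pair n i)).unpair.2.unpair.1))) ≠
          some 0 := by
      intro j m
      have := (hR' Z 0).1 hk (Nat.pair n (Nat.pair j m))
      simpa only [Nat.unpair_pair, hZ, map_pre, List.map_map, Function.comp_def, Bool.and_eq_true,
        leB_iff, Bool.not_eq_true', eqB_false_iff] using this
    rcases Nat.le_one_iff_eq_zero_or_eq_one.1 (key 0 0).1 with e | e <;> rw [e] at key ⊢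
    · refine (chi_notMem ((h0 n).2 ⟨fun i => (Z (Nat.pair n i)).unpair.2.unpair.1,
        fun j => not_not.1 fun hj => ?_⟩)).symm
      obtain ⟨m, hm⟩ := he0 (Nat.pair n (encode ((List.range j).map
        fun i => (Z (Nat.pair n i)).unpair.2.unpair.1)))
      exact (key j m).2 (by rw [chi_notMem hj] at hm; exact hm)
    · refine (chi_mem ((h1 n).2 ⟨fun i => (Z (Nat.pair n i)).unpair.2.unpair.1,
        fun j => not_not.1 fun hj => ?_⟩)).symm
      obtain ⟨m, hm⟩ := he1 (Nat.pair n (encode ((List.range j).map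
        fun i => (Z (Nat.pair n i)).unpair.2.unpair.1)))
      exact (key j m).2 (by rw [chi_notMem hj] at hm; exact hm)

/-- one step down in a column of labels -/
def down (v : ℕ) : ℕ := v.unpair.2.unpair.2

/-- the height of an element -/
def lev (x : ℕ) : ℕ := x.unpair.2.unpair.1

/-- the columns of an element -/
def col (x : ℕ) : List ℕ := dl x.unpair.2.unpair.2

/-- the label of level `i` -/
def lab (i x : ℕ) : List ℕ := (col x).map fun v => (down^[lev x - i] v).unpair.1

/-- the elements of the towers of parity `ε` -/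
def Valid (ε : ℕ) (γ : ℕ → ℕ) (R : ℕ → List ℕ → Bool) (x : ℕ) : Prop :=
  x.unpair.1 = 0 ∧ lev x % 2 = ε ∧ lab (lev x) x = pre γ (col x).length ∧
    ∀ i < lev x, R i ((col x).map down^[lev x - (i + 1)]) = true

/-- two members of `l` have incomparable labels of level `i` -/
def Clash (i : ℕ) (l : List ℕ) : Prop :=
  ∃ x ∈ l, ∃ y ∈ l, ¬ lab i x <+: lab i y ∧ ¬ lab i y <+: lab i x

/-- the marked elements, which code the set `d` -/
def Junk (d : Set ℕ) (x : ℕ) : Prop := x.unpair.1 = 2 ∨ (x.unpair.1 = 1 ∧ x.unpair.2 ∈ d)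

/-- the relations of the structures -/
def Rel (V J : ℕ → Prop) (m : ℕ) (l : List ℕ) : Prop :=
  l ≠ [] ∧ ((m.unpair.1 = 0 ∧ J (l.getD 0 0)) ∨
    ((∀ y ∈ l, V y ∧ lev y = lev (l.getD 0 0)) ∧
      ((m.unpair.1 = 1 ∧ ∀ y ∈ l, col (l.getD 0 0) <+: col y) ∨
        (m.unpair.1 = 2 ∧ (∀ i < m.unpair.2.unpair.1, Clash i l) ∧
          encode (lab m.unpair.2.unpair.1 (l.getD 0 0)) = m.unpair.2.unpair.2))))

lemma pre_comparable (γ : ℕ → ℕ) (m n : ℕ) : pre γ m <+: pre γ n ∨ pre γ n <+: pre γ m :=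
  (le_total m n).imp (pre_isPrefix γ) (pre_isPrefix γ)

lemma not_clash {ε j : ℕ} {γ : ℕ → ℕ} {R : ℕ → List ℕ → Bool} {l : List ℕ}
    (h : ∀ y ∈ l, Valid ε γ R y ∧ lev y = j) : ¬ Clash j l := by
  rintro ⟨x, hx, y, hy, h1, h2⟩
  have e1 := (h x hx).1.2.2.1
  have e2 := (h y hy).1.2.2.1
  rw [(h x hx).2] at e1
  rw [(h y hy).2] at e2
  rw [e1, e2] at h1 h2
  exact (pre_comparable γ _ _).elim h1 h2

/-- a new top level on a list of columns -/
def ext (q w : ℕ → ℕ) (t : List ℕ) : List ℕ :=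
  pre (fun k => Nat.pair (q k) (Nat.pair (w k) (t.getD k 0))) t.length

lemma ext_down (q w : ℕ → ℕ) (t : List ℕ) : (ext q w t).map down = t := by
  simp only [ext, map_pre, down, Nat.unpair_pair]
  exact pre_getD t 0

lemma ext_iter (q w : ℕ → ℕ) (t : List ℕ) (n : ℕ) :
    (ext q w t).map down^[n + 1] = t.map down^[n] := by
  rw [Function.iterate_succ, ← List.map_map, ext_down]

lemma ext_le (q w : ℕ → ℕ) {t t' : List ℕ} : ext q w t <+: ext q w t' ↔ t <+: t' := by
  refine ⟨fun h => by simpa only [ext_down] using h.map down, fun h => ?_⟩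
  have : ext q w t = pre (fun k => Nat.pair (q k) (Nat.pair (w k) (t'.getD k 0))) t.length :=
    pre_congr fun j hj => by rw [getD_of_isPrefix h hj]
  rw [this]
  exact pre_isPrefix _ h.length_le

/-- the image of an element in the next tower -/
def up (c w : ℕ → ℕ → ℕ) (x : ℕ) : ℕ :=
  Nat.pair 0 (Nat.pair (lev x + 1) (encode (ext (c (lev x + 1)) (w (lev x)) (col x))))

variable {c w : ℕ → ℕ → ℕ} {R : ℕ → List ℕ → Bool}

@[simp] lemma lev_up (x : ℕ) : lev (up c w x) = lev x + 1 := by simp [up, lev]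

lemma col_up (x : ℕ) : col (up c w x) = ext (c (lev x + 1)) (w (lev x)) (col x) := by
  simp [up, col]

lemma lab_up {i x : ℕ} (h : i ≤ lev x) : lab i (up c w x) = lab i x := by
  have := congrArg (List.map fun v => v.unpair.1)
    (ext_iter (c (lev x + 1)) (w (lev x)) (col x) (lev x - i))
  simp only [List.map_map] at this
  rw [lab, lev_up, col_up, Nat.succ_sub h]
  exact this

lemma valid_up (hc : ∀ j, c j = c (j % 2)) (hs : ∀ i, Single (c i) (c (i + 1)) (R i) (w i))
    {ε ε' x : ℕ} (hε : ε + ε' = 1) (h : Valid ε (c ε) R x) : Valid ε' (c ε') R (up c w x) := by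
  obtain ⟨-, h1, h2, h3⟩ := h
  have e : (lev x + 1) % 2 = ε' := by omega
  refine ⟨by simp [up], by rw [lev_up, e], ?_, fun i hi => ?_⟩
  · rw [lab, Nat.sub_self, col_up, ← e, ← hc]
    simp [ext, map_pre]
  · rw [lev_up] at hi ⊢
    rw [col_up]
    rcases Nat.lt_succ_iff_lt_or_eq.1 hi with hi | rfl
    · rw [show lev x + 1 - (i + 1) = lev x - (i + 1) + 1 by omega, ext_iter]
      exact h3 i hi
    · rw [Nat.sub_self, Function.iterate_zero, List.map_id]
      have := (hs (lev x)).1 (fun k => if k < (col x).length then (col x).getD k 0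
        else Nat.pair (c (lev x) k) 0) (fun k => ?_) (col x).length
      · rw [← this, ext]
        exact congrArg _ (pre_congr fun j hj => by rw [if_pos hj])
      · split_ifs with hk
        · have h4 := congrArg (fun l : List ℕ => l.getD k 0) h2
          simp only [getD_pre _ hk, lab, Nat.sub_self, Function.iterate_zero, id] at h4
          rw [hc, h1, ← h4, List.getD_eq_getElem _ _ hk, List.getD_eq_getElem _ _ (by simpa),
            List.getElem_map]
        · simp

lemma rel_map {V V' J J' : ℕ → Prop} {G : ℕ → ℕ} {ε : ℕ} {γ : ℕ → ℕ} (hV : V = Valid ε γ R)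
    (g1 : ∀ x, V' (G x) ↔ V x) (g2 : ∀ x, J' (G x) ↔ J x) (g3 : ∀ x, V x → G x = up c w x)
    (m : ℕ) (l : List ℕ) : Rel V' J' m (l.map G) ↔ Rel V J m l := by
  cases l with
  | nil => simp [Rel]
  | cons x r =>
    have e0 : ((x :: r).map G).getD 0 0 = G x := rfl
    have e1 : (x :: r).getD 0 0 = x := rfl
    have hx := List.mem_cons_self (a := x) (l := r)
    generalize hl : x :: r = l at e0 e1 hx
    have hne : l ≠ [] := List.ne_nil_of_mem hx
    unfold Rel
    rw [e0, e1, g2]
    refine and_congr (by simp) (or_congr Iff.rfl ?_)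
    have k1 : (∀ y ∈ l.map G, V' y ∧ lev y = lev (G x)) ↔ ∀ y ∈ l, V y ∧ lev y = lev x := by
      simp only [List.forall_mem_map, g1]
      constructor <;> intro h y hy <;> refine ⟨(h y hy).1, ?_⟩ <;> have := (h y hy).2
      · rw [g3 y (h y hy).1, g3 x (h x hx).1] at this
        simpa using this
      · rw [g3 y (h y hy).1, g3 x (h x hx).1]
        simpa using this
    rw [k1]
    refine and_congr_right fun h => or_congr (and_congr_right fun _ => ?_)
      (and_congr_right fun _ => ?_)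
    · simp only [List.forall_mem_map]
      refine forall₂_congr fun y hy => ?_
      rw [g3 y (h y hy).1, g3 x (h x hx).1, col_up, col_up, (h y hy).2, ext_le]
    · have k2 : ∀ i ≤ lev x, ∀ y ∈ l, lab i (G y) = lab i y := fun i hi y hy => by
        rw [g3 y (h y hy).1, lab_up ((h y hy).2 ▸ hi)]
      have k3 : ∀ i ≤ lev x, Clash i (l.map G) ↔ Clash i l := fun i hi => by
        constructor
        · rintro ⟨_, hu', _, hv', h1⟩
          obtain ⟨u, hu, rfl⟩ := List.mem_map.1 hu'
          obtain ⟨v, hv, rfl⟩ := List.mem_map.1 hv'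
          rw [k2 i hi u hu, k2 i hi v hv] at h1
          exact ⟨u, hu, v, hv, h1⟩
        · rintro ⟨u, hu, v, hv, h1⟩
          rw [← k2 i hi u hu, ← k2 i hi v hv] at h1
          exact ⟨_, List.mem_map_of_mem hu, _, List.mem_map_of_mem hv, h1⟩
      by_cases hi : m.unpair.2.unpair.1 ≤ lev x
      · rw [k2 _ hi x hx]
        exact and_congr_left fun _ => forall₂_congr fun i h' => k3 i (by omega)
      · have k4 : ¬ Clash (lev x) l := not_clash (hV ▸ h)
        exact iff_of_false (fun h' => k4 ((k3 _ le_rfl).1 (h'.1 _ (by omega))))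
          fun h' => k4 (h'.1 _ (by omega))

lemma exists_map (hc : ∀ j, c j = c (j % 2)) (hs : ∀ i, Single (c i) (c (i + 1)) (R i) (w i))
    {ε ε' : ℕ} (hε : ε + ε' = 1) (d d' : Set ℕ) : ∃ G : ℕ → ℕ, Function.Injective G ∧
      ∀ m l, Rel (Valid ε' (c ε') R) (Junk d') m (l.map G) ↔
        Rel (Valid ε (c ε) R) (Junk d) m l := by
  classical
  let G : ℕ → ℕ := fun x => if Valid ε (c ε) R x then up c w x
    else if Junk d x then Nat.pair 2 x else Nat.pair 3 x
  have f1 : ∀ x, Valid ε (c ε) R x → G x = up c w x := fun x hx => if_pos hx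
  have f2 : ∀ x, ¬ Valid ε (c ε) R x → Junk d x → G x = Nat.pair 2 x :=
    fun x hx hj => (if_neg hx).trans (if_pos hj)
  have f3 : ∀ x, ¬ Valid ε (c ε) R x → ¬ Junk d x → G x = Nat.pair 3 x :=
    fun x hx hj => (if_neg hx).trans (if_neg hj)
  have g1 : ∀ x, Valid ε' (c ε') R (G x) ↔ Valid ε (c ε) R x := by
    intro x
    by_cases hx : Valid ε (c ε) R x
    · rw [f1 x hx]
      exact iff_of_true (valid_up hc hs hε hx) hx
    · refine iff_of_false (fun h => ?_) hx
      have := h.1
      by_cases hj : Junk d x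
      · rw [f2 x hx hj] at this; simp at this
      · rw [f3 x hx hj] at this; simp at this
  have g2 : ∀ x, Junk d' (G x) ↔ Junk d x := by
    intro x
    by_cases hx : Valid ε (c ε) R x
    · rw [f1 x hx]
      simp [Junk, up, hx.1]
    · by_cases hj : Junk d x
      · rw [f2 x hx hj]
        exact iff_of_true (by simp [Junk]) hj
      · rw [f3 x hx hj]
        exact iff_of_false (by simp [Junk]) hj
  refine ⟨G, fun x y hxy => ?_, rel_map rfl g1 g2 f1⟩
  by_cases hx : Valid ε (c ε) R x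
  · have hy := (g1 y).1 (hxy ▸ (g1 x).2 hx)
    rw [f1 x hx, f1 y hy] at hxy
    have e1 : lev x = lev y := by simpa using congrArg lev hxy
    have e2 : col x = col y := by
      simpa only [col_up, ext_down] using congrArg (fun u => (col u).map down) hxy
    have e3 := congrArg encode e2
    simp only [col, encode_dl] at e3
    rw [← Nat.pair_unpair x, ← Nat.pair_unpair y, hx.1, hy.1, ← Nat.pair_unpair x.unpair.2,
      ← Nat.pair_unpair y.unpair.2, e3]
    exact congrArg (fun u => Nat.pair 0 (Nat.pair u _)) e1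
  · have hy : ¬ Valid ε (c ε) R y := fun hy => hx ((g1 x).1 (hxy ▸ (g1 y).2 hy))
    by_cases hj : Junk d x
    · have hj' : Junk d y := (g2 y).1 (hxy ▸ (g2 x).2 hj)
      rw [f2 x hx hj, f2 y hy hj'] at hxy
      exact (Nat.pair_eq_pair.1 hxy).2
    · have hj' : ¬ Junk d y := fun hy => hj ((g2 x).1 (hxy ▸ (g2 y).2 hy))
      rw [f3 x hx hj, f3 y hy hj'] at hxy
      exact (Nat.pair_eq_pair.1 hxy).2

end Pool.Agent.MP_219b86_lc.Hyp
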